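import Pool.Agent.Q140.ND.Frame

/-!
# The Frenet frame of a nondegenerate closed curve is longer than `2π μ(n)`
-/

namespace Pool.Agent.Results.MP_f07be6_gt.FrameLength

open Pool.Agent.Q140.ND

/-- The least `m ≥ 1` such that every `C^∞`-neighbourhood of the `m` times traversed circle
contains a nondegenerate closed curve of `ℝⁿ`. -/
noncomputable def mu (n : ℕ) : ℕ := sInf {m : ℕ | 1 ≤ m ∧ Perturbable n m}

/-- For every `n = N + 1 ≥ 4` and every nondegenerate closed curve in `ℝⁿ`, the length of the
Frenet frame is greater than `2π μ(n)`. -/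
theorem result (N : ℕ) (hN : 4 ≤ N + 1) (γ : ℝ → EuclideanSpace ℝ (Fin (N + 1)))
    (hγ : NondegClosed γ) : 2 * Real.pi * mu (N + 1) < frameLength γ := by
  have h1 : mu (N + 1) = 1 := (isLeast_one hN).csInf_eq
  rw [h1, Nat.cast_one, mul_one]
  exact hγ.two_pi_lt (by omega)

end Pool.Agent.Results.MP_f07be6_gt.FrameLength
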