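import Pool.Agent.Q140.ND.Defs

/-!
# `μ(n) = 1` for every `n ≥ 4`
-/

namespace Pool.Agent.Results.MP_f07be6_gt.MuEqualsOne

open Pool.Agent.Q140.ND

/-- For every `n ≥ 4` the least `m ≥ 1` such that every `C^∞`-neighbourhood of the `m` times
traversed circle contains a nondegenerate closed curve in `ℝⁿ` is `μ(n) = 1`. -/
theorem result (n : ℕ) (hn : 4 ≤ n) : IsLeast {m : ℕ | 1 ≤ m ∧ Perturbable n m} 1 :=
  isLeast_one hn

end Pool.Agent.Results.MP_f07be6_gt.MuEqualsOne
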